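import Pool.Agent.Helper64.FL.StH

/-! Full list for MP_866009_co: module DO2. -/

set_option autoImplicit false

namespace Pool.Agent.Helper64.FL

open Pool.Agent.Helper64.CT Pool.Agent.Helper64.DT
open Pool.Agent.Helper64.HG (Ovl Model Circ IC HellyCircle ChordModel)

theorem do2_comp_symm {V : Type} {G : SimpleGraph V} {x y z : V} (h : Comp G x y z) :
    Comp G x z y := by
  obtain ⟨hy, hz, hr⟩ := h
  exact ⟨hz, hy, hr.symm⟩

theorem do2_conf_symm {V : Type} {G : SimpleGraph V} {x y z : V} (h : Conf G x y z) :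
    Conf G x z y := ⟨fun hc => h.1 (do2_comp_symm hc), h.2.2, h.2.1⟩

theorem do2_le_sub {V : Type} {G : SimpleGraph V} {x a b : V} (h : Le G x a b) :
    Att G x a ⊆ Att G x b := by
  obtain ⟨⟨n, hna, hnb⟩, hm⟩ := h
  obtain ⟨hxn, u, hu, hnu⟩ := hnb
  intro n' hn'
  have hun' : G.Adj u n' := by
    by_contra hc
    exact hm u hu ⟨⟨n, hna, hnu.symm⟩, n', hn', hc⟩
  exact ⟨hn'.1, u, hu, hun'.symm⟩

theorem do2_mixed_mono {V : Type} {G : SimpleGraph V} {u : V} {A B : Set V} (hAB : A ⊆ B)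
    (h : Mixed G u A) : Mixed G u B := by
  obtain ⟨⟨n, hn, h1⟩, m, hm, h2⟩ := h
  exact ⟨⟨n, hAB hn, h1⟩, m, hAB hm, h2⟩

theorem st_DO2 : ST_DO2 := by
  intro V G x k y hM i j hij hji hDi hDj
  have hk5 := hM.k5
  -- `y j` is dominated by `y i`
  have h1 : Le G x (y j) (y i) := by
    have h := hDi (j - i) (by omega) (by omega)
    have e1 : j - i + i = j := by omega
    change Le G x (y (j - i + i)) (y (0 + i)) at h
    rwa [e1, Nat.zero_add] at h
  have h3 : ∃ d, Conf G x (y i) d ∧ Le G x d (y j) := by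
    by_cases h3 : i + 3 ≤ j
    · refine ⟨y (i + 1), hM.cf i, ?_⟩
      have h := hDj (k - (j - i) + 1) (by omega) (by omega)
      have e1 : k - (j - i) + 1 + j = i + 1 + k := by omega
      change Le G x (y (k - (j - i) + 1 + j)) (y (0 + j)) at h
      rwa [e1, hM.per (i + 1), Nat.zero_add] at h
    · refine ⟨y (i + k - 1), ?_, ?_⟩
      · have h := hM.cf (i + k - 1)
        rw [show i + k - 1 + 1 = i + k by omega, hM.per i] at h
        exact do2_conf_symm h
      · have h := hDj (k - 3) (by omega) (by omega)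
        have e1 : k - 3 + j = i + k - 1 := by omega
        change Le G x (y (k - 3 + j)) (y (0 + j)) at h
        rwa [e1, Nat.zero_add] at h
  obtain ⟨d, hcd, hld⟩ := h3
  obtain ⟨u, hu, hmix⟩ := hcd.2.1
  exact h1.2 u hu (do2_mixed_mono (do2_le_sub hld) hmix)

end Pool.Agent.Helper64.FL
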