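import Pool.Agent.Helper64.FL.StH

/-! Full list for MP_866009_co: module DOM. -/

set_option autoImplicit false

namespace Pool.Agent.Helper64.FL

open Pool.Agent.Helper64.CT Pool.Agent.Helper64.DT
open Pool.Agent.Helper64.HG (Ovl Model Circ IC HellyCircle ChordModel)

theorem dom_comp_symm {V : Type} {G : SimpleGraph V} {x y z : V} (h : Comp G x y z) :
    Comp G x z y := by
  obtain ⟨hy, hz, hr⟩ := h
  exact ⟨hz, hy, hr.symm⟩

theorem dom_conf_symm {V : Type} {G : SimpleGraph V} {x y z : V} (h : Conf G x y z) :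
    Conf G x z y := ⟨fun hc => h.1 (dom_comp_symm hc), h.2.2, h.2.1⟩

theorem dom_prop (h1 : ST_PRP) {V : Type} {G : SimpleGraph V} {x : V} {k : ℕ} {z : ℕ → V}
    (hM : MOC G x k z) (l0 : ℕ) (h2 : 2 ≤ l0) (hk : l0 + 2 ≤ k) (hl : Le G x (z l0) (z 0)) :
    Dom0 G x k z := by
  have up : ∀ m, l0 + m + 2 ≤ k → Le G x (z (l0 + m)) (z 0) := by
    intro m
    induction m with
    | zero => intro _; exact hl
    | succ m ih =>
      intro hm
      have h3 := ih (by omega)
      have h4 : Conf G x (z (l0 + m)) (z (l0 + (m + 1))) := hM.cf (l0 + m)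
      refine h1 V G x (z (l0 + m)) (z 0) (z (l0 + (m + 1))) h3 h4 ?_ ?_
      · intro hc
        exact hM.nc 0 (l0 + (m + 1)) (by omega) (by omega) (dom_conf_symm hc)
      · intro hc
        exact hM.ncm 0 (l0 + (m + 1)) (by omega) (by omega) (dom_comp_symm hc)
  have down : ∀ m, m + 2 ≤ l0 → Le G x (z (l0 - m)) (z 0) := by
    intro m
    induction m with
    | zero => intro _; exact hl
    | succ m ih =>
      intro hm
      have h3 := ih (by omega)
      have h4 : Conf G x (z (l0 - (m + 1))) (z (l0 - (m + 1) + 1)) := hM.cf (l0 - (m + 1))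
      have h5 : l0 - (m + 1) + 1 = l0 - m := by omega
      rw [h5] at h4
      refine h1 V G x (z (l0 - m)) (z 0) (z (l0 - (m + 1))) h3 (dom_conf_symm h4) ?_ ?_
      · intro hc
        exact hM.nc 0 (l0 - (m + 1)) (by omega) (by omega) (dom_conf_symm hc)
      · intro hc
        exact hM.ncm 0 (l0 - (m + 1)) (by omega) (by omega) (dom_comp_symm hc)
  intro j hj1 hj2
  rcases le_total l0 j with h | h
  · have := up (j - l0) (by omega)
    rwa [show l0 + (j - l0) = j by omega] at this
  · have := down (l0 - j) (by omega)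
    rwa [show l0 - (l0 - j) = j by omega] at this

theorem st_DOM (h1 : ST_PRP) (h2 : ST_SHF) : ST_DOM := by
  intro V G x k y hM i j n hij hji hni hnj
  have hnc := hM.nc i j hij hji
  have hncm := hM.ncm i j (by omega) (by omega)
  by_cases hA : ∃ u, Comp G x (y i) u ∧ Mixed G u (Att G x (y j))
  · right
    have hB : ¬ ∃ u, Comp G x (y j) u ∧ Mixed G u (Att G x (y i)) := fun hB => hnc ⟨hncm, hA, hB⟩
    have hMj := (h2 V G x k y hM).1 j
    refine dom_prop h1 hMj (k - (j - i)) (by omega) (by omega) ?_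
    have e1 : k - (j - i) + j = i + k := by omega
    show Le G x (y (k - (j - i) + j)) (y (0 + j))
    rw [e1, hM.per i, Nat.zero_add]
    exact ⟨⟨n, hni, hnj⟩, fun u hu hm => hB ⟨u, hu, hm⟩⟩
  · left
    have hMi := (h2 V G x k y hM).1 i
    refine dom_prop h1 hMi (j - i) (by omega) (by omega) ?_
    have e1 : j - i + i = j := by omega
    show Le G x (y (j - i + i)) (y (0 + i))
    rw [e1, Nat.zero_add]
    exact ⟨⟨n, hnj, hni⟩, fun u hu hm => hA ⟨u, hu, hm⟩⟩

end Pool.Agent.Helper64.FL
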