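import Pool.Agent.Helper64.FL.StC

/-! Full list for MP_866009_co: module MNN. -/

set_option autoImplicit false

namespace Pool.Agent.Helper64.FL

open Pool.Agent.Helper64.CT Pool.Agent.Helper64.DT
open Pool.Agent.Helper64.HG (Ovl Model Circ IC HellyCircle ChordModel)

theorem mnn_pl (hPTB : ST_PTB) (hCNB : ST_CNB) {V : Type} {G : SimpleGraph V} (S : Set V) :
    ∀ (l : List V) (s t : V), Pth G s l t → s ∈ S → (∀ v ∈ l, v ∈ S) → ∀ u ∈ l, Cn G S s u := by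
  obtain ⟨-, -, hP3, -, -, -⟩ := hPTB V G
  obtain ⟨-, hC2, -, hC4, -, -, -⟩ := hCNB V G
  intro l
  induction l with
  | nil => intro s t _ _ _ u hu; simp at hu
  | cons w l ih =>
    intro s t hp hs hl u hu
    obtain ⟨haw, -, -, -, hp', -⟩ := hP3 s w l t hp
    have hwS : w ∈ S := hl w (by simp)
    have h1 : Cn G S s w := hC4 S s w hs hwS haw
    rcases List.mem_cons.1 hu with rfl | hu'
    · exact h1
    · exact hC2 S s w u h1 (ih w t hp' hwS (fun v hv => hl v (by simp [hv])) u hu')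

theorem mnn_leg (hPTB : ST_PTB) (hCNB : ST_CNB) {V : Type} {G : SimpleGraph V} (S : Set V)
    (l : List V) (s t : V) (hp : Pth G s l t) (hS : ∀ v, (v = s ∨ v ∈ l ∨ v = t) → v ∈ S) :
    ∀ u, (u = s ∨ u ∈ l ∨ u = t) → Cn G S s u := by
  have hs : s ∈ S := hS s (Or.inl rfl)
  have ht : t ∈ S := hS t (Or.inr (Or.inr rfl))
  have hl : ∀ v ∈ l, v ∈ S := fun v hv => hS v (Or.inr (Or.inl hv))
  intro u hu
  rcases hu with rfl | hu | rfl
  · exact ⟨hs, Relation.ReflTransGen.refl⟩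
  · exact mnn_pl hPTB hCNB S l s t hp hs hl u hu
  · exact (hCNB V G).2.2.2.2.2.2 S s l u hp ⟨hs, ht, hl⟩

theorem mnn_core (hPTB : ST_PTB) (hCNB : ST_CNB) {V : Type} {G : SimpleGraph V} {T : Set V}
    {x y z a b c p q r : V} {la lb lc : List V} (hN : Net G T p q r la a lb b lc c)
    (yb : G.Adj y b) (zc : G.Adj z c)
    (hm : ∀ T' ⊆ T, ∀ a' b' c', G.Adj x a' → G.Adj y b' → G.Adj z c' → Cn G T' a' b' →
      Cn G T' a' c' → T' = T) :
    ∀ u, ((u = p ∧ p ≠ a) ∨ u = q ∨ u = r ∨ u ∈ la ∨ u ∈ lb ∨ u ∈ lc) → ¬ G.Adj x u := by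
  obtain ⟨hC1, hC2, -, hC4, -, -, -⟩ := hCNB V G
  obtain ⟨inS, pq, pr, qr, pa, pb, pc, ab, ac, bc⟩ := hN
  have haT : a ∈ T := inS a (by simp)
  -- the part away from the first leg
  have hcon : ∀ S : Set V, (∀ v, (v = q ∨ v ∈ lb ∨ v = b ∨ v = r ∨ v ∈ lc ∨ v = c) → v ∈ S) →
      ∀ u, (u = q ∨ u ∈ lb ∨ u = b ∨ u = r ∨ u ∈ lc ∨ u = c) → Cn G S q u := by
    intro S hS u hu
    have hqr : Cn G S q r := hC4 S q r (hS q (by simp)) (hS r (by simp)) qr
    have h1 : ∀ u, (u = q ∨ u ∈ lb ∨ u = b) → Cn G S q u :=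
      mnn_leg hPTB hCNB S lb q b pb (fun v hv => hS v (by tauto))
    have h2 : ∀ u, (u = r ∨ u ∈ lc ∨ u = c) → Cn G S r u :=
      mnn_leg hPTB hCNB S lc r c pc (fun v hv => hS v (by tauto))
    by_cases h : u = q ∨ u ∈ lb ∨ u = b
    · exact h1 u h
    · exact hC2 S q r u hqr (h2 u (by tauto))
  have hane : ∀ v, (v = q ∨ v ∈ lb ∨ v = b ∨ v = r ∨ v ∈ lc ∨ v = c) → a ≠ v := by
    intro v hv
    by_cases h : v = q ∨ v ∈ lb ∨ v = b
    · exact (ab a (by simp) v h).1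
    · exact (ac a (by simp) v (by tauto)).1
  intro u hu hxu
  by_cases hA : (u = p ∧ p ≠ a) ∨ u ∈ la
  · have hpa : p ≠ a := by
      rcases hA with h | h
      · exact h.2
      · rcases pa with ⟨-, h0⟩ | ⟨h0, -⟩
        · rw [h0] at h; simp at h
        · exact h0
    have hala : a ∉ la := ((hPTB V G).2.1 p la a pa).2.1
    let S : Set V := {v | (v = p ∨ v ∈ la) ∨ (v = q ∨ v ∈ lb ∨ v = b ∨ v = r ∨ v ∈ lc ∨ v = c)}
    have hS1 : ∀ v, (v = q ∨ v ∈ lb ∨ v = b ∨ v = r ∨ v ∈ lc ∨ v = c) → v ∈ S :=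
      fun v hv => Or.inr hv
    have hpS : p ∈ S := Or.inl (Or.inl rfl)
    have hlaS : ∀ v ∈ la, v ∈ S := fun v hv => Or.inl (Or.inr hv)
    have hST : S ⊆ T := by
      intro v hv
      rcases hv with hv | hv
      · exact inS v (by tauto)
      · exact inS v (by tauto)
    have hpu : Cn G S p u := by
      by_cases h : u = p
      · rw [h]; exact ⟨hpS, Relation.ReflTransGen.refl⟩
      · exact mnn_pl hPTB hCNB S la p a pa hpS hlaS u (by tauto)
    have hup : Cn G S u p := (hC1 S p u hpu).2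
    have huq : Cn G S u q := hC2 S u p q hup (hC4 S p q hpS (hS1 q (by simp)) pq)
    have hub : Cn G S u b := hC2 S u q b huq (hcon S hS1 b (by simp))
    have huc : Cn G S u c := hC2 S u q c huq (hcon S hS1 c (by simp))
    have hE := hm S hST u b c hxu yb zc hub huc
    have haS : a ∈ S := by rw [hE]; exact haT
    rcases haS with (h | h) | h
    · exact hpa h.symm
    · exact hala h
    · exact hane a h rfl
  · let S : Set V := {v | v = q ∨ v ∈ lb ∨ v = b ∨ v = r ∨ v ∈ lc ∨ v = c}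
    have hS1 : ∀ v, (v = q ∨ v ∈ lb ∨ v = b ∨ v = r ∨ v ∈ lc ∨ v = c) → v ∈ S := fun v hv => hv
    have hST : S ⊆ T := fun v hv => inS v (by
      have hv' : v = q ∨ v ∈ lb ∨ v = b ∨ v = r ∨ v ∈ lc ∨ v = c := hv
      tauto)
    have huS : u = q ∨ u ∈ lb ∨ u = b ∨ u = r ∨ u ∈ lc ∨ u = c := by tauto
    have huq : Cn G S u q := (hC1 S q u (hcon S hS1 u huS)).2
    have hub : Cn G S u b := hC2 S u q b huq (hcon S hS1 b (by simp))
    have huc : Cn G S u c := hC2 S u q c huq (hcon S hS1 c (by simp))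
    have hE := hm S hST u b c hxu yb zc hub huc
    have haS : a ∈ S := by rw [hE]; exact haT
    exact hane a haS rfl

theorem mnn_sw {V : Type} {G : SimpleGraph V} {p q : V} {la lb : List V} {a b : V}
    (h : NetX G p la a q lb b) : NetX G q lb b p la a := by
  intro u hu v hv
  obtain ⟨h1, h2⟩ := h v hv u hu
  exact ⟨fun e => h1 e.symm, fun e => (h2 e.symm).symm⟩

theorem st_MNN (hQPR : ST_QPR) (hRAY : ST_RAY) (hPTB : ST_PTB) (hCNB : ST_CNB) : ST_MNN := by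
  intro V _ G Q T hDF hNoP hMax hTQ x y z a b c hx hy hz hxy hxz hyz hM p q r la lb lc hN
  obtain ⟨hC1, hC2, -, -, -, -, -⟩ := hCNB V G
  obtain ⟨hR1, -, -, -, -, -⟩ := hRAY V G Q hDF hMax
  have aT := hM.aT
  have bT := hM.bT
  have cT := hM.cT
  have xa := hM.xa
  have yb := hM.yb
  have zc := hM.zc
  have hmin := hM.min
  have rx : RayQ G Q x a := ⟨hx, xa, hTQ a aT⟩
  have ry : RayQ G Q y b := ⟨hy, yb, hTQ b bT⟩
  have rz : RayQ G Q z c := ⟨hz, zc, hTQ c cT⟩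
  have axy : G.Adj x y := hMax.1 x hx y hy hxy
  have axz : G.Adj x z := hMax.1 x hx z hz hxz
  have ayz : G.Adj y z := hMax.1 y hy z hz hyz
  -- the three permuted nets
  have hN2 : Net G T q p r lb b la a lc c :=
    ⟨fun u hu => hN.inS u (by tauto), hN.xy.symm, hN.yz, hN.xz, hN.pb, hN.pa, hN.pc,
      mnn_sw hN.ab, hN.bc, hN.ac⟩
  have hN3 : Net G T r q p lc c lb b la a :=
    ⟨fun u hu => hN.inS u (by tauto), hN.yz.symm, hN.xz.symm, hN.xy.symm, hN.pc, hN.pb, hN.pa,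
      mnn_sw hN.bc, mnn_sw hN.ac, mnn_sw hN.ab⟩
  have kx := mnn_core hPTB hCNB hN yb zc hmin
  have ky := mnn_core hPTB hCNB (x := y) (y := x) (z := z) hN2 xa zc
    (fun T' hT' a' b' c' h1 h2 h3 h4 h5 => hmin T' hT' b' a' c' h2 h1 h3 (hC1 T' a' b' h4).2
      (hC2 T' b' a' c' (hC1 T' a' b' h4).2 h5))
  have kz := mnn_core hPTB hCNB (x := z) (y := y) (z := x) hN3 yb xa
    (fun T' hT' a' b' c' h1 h2 h3 h4 h5 => hmin T' hT' c' b' a' h3 h2 h1
      (hC2 T' c' a' b' (hC1 T' a' c' h5).2 h4) (hC1 T' a' c' h5).2)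
  refine hQPR V G T hNoP x y z p q r la a lb b lc c axy axz ayz hN xa yb zc
    (hR1 x a y rx hy (Ne.symm hxy)).1 (hR1 x a z rx hz (Ne.symm hxz)).1
    (hR1 y b x ry hx hxy).1 (hR1 y b z ry hz (Ne.symm hyz)).1
    (hR1 z c x rz hx hxz).1 (hR1 z c y rz hy hyz).1 ?_
  intro u hu
  have huT : u ∈ T := hN.inS u (by tauto)
  have huQ : u ∉ Q := hTQ u huT
  refine ⟨⟨fun h => huQ (h ▸ hx), kx u (by tauto)⟩, ⟨fun h => huQ (h ▸ hy), ky u (by tauto)⟩,
    ⟨fun h => huQ (h ▸ hz), kz u (by tauto)⟩⟩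

end Pool.Agent.Helper64.FL
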